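import Pool.Agent.Lib.MP_fb5c70_coU.Main
import Pool.Agent.Lib.MP_fb5c70_coU.MainB

/-!
# Sparse connected graphs which are not `K₃`-good: maximum degree 11, `f(K₃, n) ≤ 11 n / 2 - 2`

(1) For every `n ≥ 150` there is a connected graph `G` with `n` vertices and at most `6 n - 1` edges, and (2) for every `n ≥ 3000` there is a connected graph `G` with `n` vertices, of
maximum degree at most `11` and with at most `(11 n - 2) / 2` edges, such that `r(K₃, G) > 2 n - 1`: there is a triangle-free graph `H` with `2 n - 1` vertices whose complement
contains no copy of `G` (no injective map of the vertices sends every edge of `G` to a pair which is not an edge of `H`). So `G` is not `K₃`-good.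

`H` is the blow-up of the pentagon with classes of almost equal sizes. In (1) `G` is a Hamiltonian path together with five functions `F j : Fin n → Fin n` (`v` is joined to `F j v`),
in (2) a Hamiltonian path together with four permutations and a matching. A copy of `G` gives a word `w : Fin n → Fin 5` with at most `(2 n + 3) / 5` letters of each kind, without
adjacent consecutive letters, such that `w v` and `w (F j v)` are not adjacent in the pentagon. The number of the `F` for one word is estimated with fixed weights, so that the sum
over the words is that of a transfer matrix, and is less than the number of all `F`; this is a quadratic inequality for the relative sizes of the five classes.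
-/

set_option autoImplicit false

theorem Pool.Agent.Results.MP_fb5c70_co.LinearUpperBound.result :
    (∀ n : ℕ, 150 ≤ n → ∃ G : SimpleGraph (Fin n), G.Connected ∧ G.edgeSet.ncard + 1 ≤ 6 * n ∧
      ∃ H : SimpleGraph (Fin (2 * n - 1)), H.CliqueFree 3 ∧
        ¬ ∃ f : Fin n → Fin (2 * n - 1), Function.Injective f ∧ ∀ u v, G.Adj u v → Hᶜ.Adj (f u) (f v)) ∧
    ∀ n : ℕ, 3000 ≤ n → ∃ G : SimpleGraph (Fin n), G.Connected ∧ (∀ v, (G.neighborSet v).ncard ≤ 11) ∧ 2 * G.edgeSet.ncard + 2 ≤ 11 * n ∧
      ∃ H : SimpleGraph (Fin (2 * n - 1)), H.CliqueFree 3 ∧
        ¬ ∃ f : Fin n → Fin (2 * n - 1), Function.Injective f ∧ ∀ u v, G.Adj u v → Hᶜ.Adj (f u) (f v) :=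
  ⟨fun n hn => Pool.Agent.MP_fb5c70_coU.main n hn, fun n hn => Pool.Agent.MP_fb5c70_coU.mainB n hn⟩
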