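import Pool.Agent.Lib.MP_fb5c70_coL.Main

set_option autoImplicit false

namespace Pool.Agent.Results.MP_fb5c70_co.SixFifths

/-- Every connected graph with `n ≥ 4` vertices and at most `(6 n - 1) / 5` edges is
`K₃`-good. -/
theorem result : ∀ n : ℕ, 4 ≤ n → ∀ G : SimpleGraph (Fin n), G.Connected →
    5 * G.edgeSet.ncard + 1 ≤ 6 * n →
    ((∀ H : SimpleGraph (Fin (2 * n - 1)), ¬ H.CliqueFree 3 ∨
        ∃ f : Fin n → Fin (2 * n - 1), Function.Injective f ∧
          ∀ u v, G.Adj u v → Hᶜ.Adj (f u) (f v)) ∧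
     ¬ (∀ H : SimpleGraph (Fin (2 * n - 2)), ¬ H.CliqueFree 3 ∨
        ∃ f : Fin n → Fin (2 * n - 2), Function.Injective f ∧
          ∀ u v, G.Adj u v → Hᶜ.Adj (f u) (f v))) :=
  fun n hn G hG hE => Pool.Agent.MP_fb5c70_coL.six_fifths n hn G hG hE

end Pool.Agent.Results.MP_fb5c70_co.SixFifths
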